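import Pool.Agent.Helper32.CG.CohSurf

/-!
# Coherence of the group rings of virtually (surface-by-ℤ) groups

`CG.SurfaceGroup g` is the fundamental group of the closed orientable surface of genus `g`:
generators `a_i = (i, false)`, `b_i = (i, true)`, `i < g`, and the relation
`[a_0, b_0] ⋯ [a_{g-1}, b_{g-1}] = 1`.
-/

set_option autoImplicit false

namespace Pool.Agent.Results.MP_c6d29e_al.SurfaceByZ

/-- Let `B` be a commutative Noetherian ring and `G` a group having a subgroup `G₁` of finite index
with a normal subgroup `S` isomorphic to the fundamental group of a closed orientable surface of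
genus `g ≥ 1` such that `G₁ ⧸ S` is infinite cyclic. Then every finitely generated left ideal of the
group ring `B[G]` is finitely presented. -/
theorem result (B : Type) [CommRing B] [IsNoetherianRing B] (G : Type) [Group G]
    (G₁ : Subgroup G) [G₁.FiniteIndex] (S : Subgroup ↥G₁) [S.Normal] (g : ℕ) (hg : 1 ≤ g)
    (e : ↥S ≃* CG.SurfaceGroup g) (q : (↥G₁ ⧸ S) ≃* Multiplicative ℤ)
    (I : Submodule (MonoidAlgebra B G) (MonoidAlgebra B G)) (hI : I.FG) :
    Module.FinitePresentation (MonoidAlgebra B G) I :=
  CG.final B G G₁ S g hg e q I hI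

end Pool.Agent.Results.MP_c6d29e_al.SurfaceByZ
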